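import Mathlib
import Pool.Agent.V7H99.CD.M4

set_option autoImplicit false

/-!
# Diophantine approximation with odd almost prime squarefree congruent numbers

Let `k ≥ 1`.  There is `R` such that for every real polynomial `f` of degree `k` with irrational
leading coefficient and every residue class `a` modulo `M` which contains an odd squarefree number
there are infinitely many odd squarefree congruent numbers `n ≡ a` modulo `M` with
`‖f(n)‖ ≤ n ^ (-1 / R)` and `n = (a, M) m`, where `m` has at most `R` prime factors, all of them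
larger than `n ^ (1 / R)`.  (Take `f(x) = α x - β`, `M = 8` and `a = 1` or `3`: the numbers `α n`
come within `n ^ (-δ)` of every real `β` modulo one.)  The quantitative form: if `0 < ε ≤ 1 / 3`,
`|α - b / Q| ≤ 1 / Q ^ 2` with `(b, Q) = 1` and `X ^ ε ≤ Q ≤ X ^ (k - ε)`, then there are at least
`X ^ (1 / 3 - ε)` such numbers `n ≤ X`, uniformly in the moduli `M ≤ X ^ (1 / R)`, the classes and
all the polynomials `f` with leading coefficient `α`.

Proof.  The numbers are the values `n = u (W² u - 1) (W² u + 1)`, `u = W ⁴ (v + 1) - n₀`, of a cubic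
polynomial in `v ≤ V`, where `W = M z!` and `n₀` is a suitable representative of the class modulo
`W ⁴`; they satisfy `n ≡ n₀` modulo `W ⁴`.  They are weighted by `((1 + cos 2 π f(n)) / 2) ^ N`,
`N` a small power of `V`.  Weyl's inequality (inverse theorem of the starting files) on all
progressions modulo `d ≤ V ^ δ` gives a level of distribution for this weight; the fundamental
lemma removes the `v` for which one of the three linear forms has a small prime factor, squares of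
medium primes are removed by the distribution in progressions modulo `p ²`, squares of large primes
trivially.
-/

namespace Pool.Agent.Results.MP_05dcdc_nt.DiophantineApproximationH99

open Polynomial

/-- `n` is the area of a right triangle with rational sides -/
def IsCongruent (n : ℕ) : Prop :=
  ∃ a b c : ℚ, 0 < a ∧ 0 < b ∧ 0 < c ∧ a ^ 2 + b ^ 2 = c ^ 2 ∧ (n : ℚ) = a * b / 2

/-- `m` has at most `R` prime factors (with multiplicity), all of them larger than `X ^ (1 / R)` -/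
def AlmostPrime (R : ℕ) (X : ℝ) (m : ℕ) : Prop :=
  m.primeFactorsList.length ≤ R ∧
    ∀ p : ℕ, p.Prime → p ∣ m → X ^ (1 / (R : ℝ)) < (p : ℝ)

/-- the distance of `x` to the nearest integer is at most `δ` -/
def Near (x δ : ℝ) : Prop := ∃ z : ℤ, |x - z| ≤ δ

/-- **Diophantine approximation with odd almost prime congruent numbers.** -/
theorem result (k : ℕ) (hk : 1 ≤ k) :
    (∀ ε : ℝ, 0 < ε → ε ≤ 1 / 3 → ∃ R : ℕ, 1 ≤ R ∧ ∃ X₀ : ℝ, ∀ X : ℝ, X₀ ≤ X →
      ∀ M a : ℕ, 0 < M → (M : ℝ) ≤ X ^ (1 / (R : ℝ)) → (∃ s : ℕ, Squarefree s ∧ Odd s ∧ s ≡ a [MOD M]) →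
      ∀ f : ℝ[X], f.natDegree ≤ k →
      ∀ (b : ℤ) (Q : ℕ), IsCoprime b (Q : ℤ) → X ^ ε ≤ Q → (Q : ℝ) ≤ X ^ ((k : ℝ) - ε) →
      |f.coeff k - b / Q| ≤ 1 / (Q : ℝ) ^ 2 →
      X ^ (1 / 3 - ε) ≤ ({n : ℕ | (n : ℝ) ≤ X ∧ Squarefree n ∧ Odd n ∧ n ≡ a [MOD M] ∧ IsCongruent n ∧
        Near (f.eval (n : ℝ)) (X ^ (-(1 / (R : ℝ)))) ∧
        ∃ m, n = Nat.gcd a M * m ∧ AlmostPrime R X m}.ncard : ℝ)) ∧
    (∃ R : ℕ, 1 ≤ R ∧ ∀ f : ℝ[X], f.natDegree ≤ k → Irrational (f.coeff k) →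
      ∀ M a : ℕ, 0 < M → (∃ s : ℕ, Squarefree s ∧ Odd s ∧ s ≡ a [MOD M]) →
      {n : ℕ | Squarefree n ∧ Odd n ∧ n ≡ a [MOD M] ∧ IsCongruent n ∧
        Near (f.eval (n : ℝ)) ((n : ℝ) ^ (-(1 / (R : ℝ)))) ∧
        ∃ m, n = Nat.gcd a M * m ∧ AlmostPrime R n m}.Infinite) := by
  have hodd : ∀ M s n : ℕ, Odd s → (Odd M → Odd n) → n ≡ s [MOD M] → Odd n := by
    intro M s n hs hM hn
    rcases Nat.even_or_odd M with h | h
    · have h1 : n ≡ s [MOD 2] := hn.of_dvd (even_iff_two_dvd.1 h)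
      rw [Nat.odd_iff] at hs ⊢
      rw [← hs]
      exact h1
    · exact hM h
  have hgcd : ∀ M s a : ℕ, s ≡ a [MOD M] → Nat.gcd s M = Nat.gcd a M := fun M s a h => h.gcd_eq
  refine ⟨?_, ?_⟩
  · intro ε hε hε1
    obtain ⟨R, hR, X₀, h⟩ := Pool.Agent.V7H99.CD.main k hk ε hε hε1
    refine ⟨R, hR, X₀, ?_⟩
    rintro X hX M a hM hMX ⟨s, hs, hso, hsa⟩ f hf b Q hbQ hQ1 hQ2 hα
    refine (h X hX M s hM hMX hs f hf b Q hbQ hQ1 hQ2 hα).trans ?_
    have hfin : {n : ℕ | (n : ℝ) ≤ X ∧ Squarefree n ∧ Odd n ∧ n ≡ a [MOD M] ∧ IsCongruent n ∧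
        Near (f.eval (n : ℝ)) (X ^ (-(1 / (R : ℝ)))) ∧
        ∃ m, n = Nat.gcd a M * m ∧ AlmostPrime R X m}.Finite := by
      apply (Set.finite_Iic ⌊X⌋₊).subset
      intro n hn
      exact Nat.le_floor hn.1
    have hsub : Pool.Agent.V7H99.CD.TS R M s X f ⊆ {n : ℕ | (n : ℝ) ≤ X ∧ Squarefree n ∧ Odd n ∧
        n ≡ a [MOD M] ∧ IsCongruent n ∧ Near (f.eval (n : ℝ)) (X ^ (-(1 / (R : ℝ)))) ∧
        ∃ m, n = Nat.gcd a M * m ∧ AlmostPrime R X m} := by
      rintro n ⟨h1, h2, h3, h4, h5, h6, h7, m, h8, h9⟩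
      refine ⟨h2, h3, hodd M s n hso h5 h4, h4.trans hsa, h6, h7, m, ?_, h9⟩
      rw [h8, hgcd M s a hsa]
    exact_mod_cast Set.ncard_le_ncard hsub hfin
  · obtain ⟨R, hR, h⟩ := Pool.Agent.V7H99.CD.main_inf k hk
    refine ⟨R, hR, ?_⟩
    rintro f hf hirr M a hM ⟨s, hs, hso, hsa⟩
    refine (h M s hM hs f hf hirr).mono ?_
    rintro n ⟨h3, h4, h5, h6, h7, m, h8, h9⟩
    refine ⟨h3, hodd M s n hso h5 h4, h4.trans hsa, h6, h7, m, ?_, h9⟩
    rw [h8, hgcd M s a hsa]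

end Pool.Agent.Results.MP_05dcdc_nt.DiophantineApproximationH99
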